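import Pool.Agent.H61.KW.TC

/-!
Item CEL (board KW): transversal feet of faces which are not simplicial have rank at least 4.
-/

open Set

namespace Pool.Agent.H59.KW

open Pool.Agent.H61.KV Pool.Agent.H61.KW

theorem pf_CEL4 (h : T_NR2) (h2 : T_A3F) (h3 : T_TFT) (h4 : T_LDE) (h5 : T_XSP) (h6 : T_XOU)
    (h7 : T_NSC) : T_CEL4 := by
  intro V _ _ _ m kit star q g hq hns htf
  have hC : IsCC (Cn m) := kit.cc
  have hqC : q ∈ Cn m := kit.mem q hq
  have hrq : rk (Cn m) q = 4 := kit.rk4 q hq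
  have r3 : 3 ≤ rk (Cn m) g := h V m kit star q g hq htf
  by_contra hcon
  have rg : rk (Cn m) g = 3 := by omega
  have hself : q ∈ Fc (Cn m) q := self hC hqC
  have hA : ∀ u, Ex (Cn m) u → u ∈ Fc (Cn m) q → 5 ≤ rk (Cn m) (g + u) := by
    intro u hu huq
    obtain ⟨-, -, t4, tE, tO, -⟩ := h3 V m kit q g u hq htf huq hu.2.1
    by_contra hlt
    have e4 : rk (Cn m) (g + u) = 4 := by omega
    exact hns (h2 V m kit star q (g + u) hq (tE e4) tO)
  have hdis : ∀ s v, s ∈ Cn m → Ex (Cn m) v → v ∉ Fc (Cn m) s →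
      ∀ t ∈ Fc (Cn m) s, t ∈ Fc (Cn m) v → t = 0 :=
    fun s v hs hv hvs t ht htv => ex_meet hC hs hv hvs htv ht
  have hind : ∀ s u, s ∈ Cn m → Ex (Cn m) u → 2 ≤ rk (Cn m) s →
      ∃ v, Ex (Cn m) v ∧ v ∈ Fc (Cn m) s ∧ v ∉ Fc (Cn m) u := by
    intro s u hs hu h2s
    have hf : Module.finrank ℝ (Submodule.span ℝ ({u} : Set V)) < rk (Cn m) s := by
      rw [finrank_span_singleton hu.2.1]
      omega
    obtain ⟨v, hv, hvs, hvW⟩ := h5 V (Cn m) s (Submodule.span ℝ ({u} : Set V)) hC hs hf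
    refine ⟨v, hv, hvs, fun hvu => hvW ?_⟩
    obtain ⟨c, hc⟩ := hu.2.2 v hvu
    rw [hc]
    exact Submodule.smul_mem _ _ (Submodule.mem_span_singleton_self u)
  have hscx : Scx (Cn m) q := by
    intro s hs
    by_contra hnx
    have hsC : s ∈ Cn m := mem_C hs.1
    have hs2 : 2 ≤ rk (Cn m) s := by
      by_contra hlt
      exact hnx (ex_of_rk hC hsC hs.2.1 (by omega))
    obtain ⟨u1, hu1, hu1s, -⟩ := h6 V (Cn m) {0} s hC hsC rfl
      (by intro a ha b hb; rw [mem_singleton_iff] at *; rw [ha, hb, add_zero]) hs.2.1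
    obtain ⟨u2, hu2, hu2s, hu21⟩ := hind s u1 hsC hu1 hs2
    obtain ⟨-, -, -, -, l1⟩ := h4 V m kit q g u1 u2 s hq htf hs.1 hu1s hu2s
      (hdis u1 u2 hu1.1 hu2 hu21)
    have a1 := hA u1 hu1 (tra hC hqC hs.1 hu1s)
    have a2 := hA u2 hu2 (tra hC hqC hs.1 hu2s)
    rw [ex_rk hC hu1, ex_rk hC hu2, rg] at l1
    obtain ⟨u, hu, huq, hus⟩ := h6 V (Cn m) (Fc (Cn m) s) q hC hqC (zero_fc hC hsC)
      (fun a ha b hb => add_fc hC hsC ha hb) hs.2.2
    obtain ⟨r9, -, -, -, l2⟩ := h4 V m kit q g s u q hq htf hself hs.1 huq (hdis s u hsC hu hus)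
    have a3 := hA u hu huq
    rw [r9, hrq, rg, ex_rk hC hu] at l2
    omega
  exact h7 V m kit star q hq hscx

end Pool.Agent.H59.KW
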