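import Pool.Agent.H61.KW.TC

/-!
Item DIC (board KW): the alternative.
-/

open Set

namespace Pool.Agent.H59.KW

open Pool.Agent.H59 Pool.Agent.H64.LB Pool.Agent.H61.KU Pool.Agent.H61.KV Pool.Agent.H61.KW

theorem pf_DIC (hCFI : T_CFI) (hKIT : T_KIT) (hEXG : T_EXG) (hNST : T_NST) (hALT : T_ALT)
    (hFNT : T_FNT) (hHUL : T_HUL) : T_DIC := by
  intro f hi ht hs
  have cfg : Cfg (fun x => ((f x, (1 : ℝ)) : E8 × ℝ)) := hCFI f hi ht hs
  have kit : Kit (fun x => ((f x, (1 : ℝ)) : E8 × ℝ)) := hKIT (E8 × ℝ) _ cfg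
  by_cases star : Star (fun x => ((f x, (1 : ℝ)) : E8 × ℝ))
  · left
    obtain ⟨p, hp⟩ := hEXG (E8 × ℝ) _ cfg
    have hpos : ∀ r ∈ Cn (fun x => ((f x, (1 : ℝ)) : E8 × ℝ)), r ≠ 0 →
        0 < LinearMap.snd ℝ E8 ℝ r := by
      rintro r ⟨c, q, hc, hq, rfl⟩ h0
      have hq1 : q.2 = 1 := by
        have hsub : convexHull ℝ (range (fun x => ((f x, (1 : ℝ)) : E8 × ℝ))) ⊆
            {q : E8 × ℝ | q.2 = 1} := by
          refine convexHull_min ?_ ?_
          · rintro _ ⟨x, rfl⟩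
            rfl
          · intro a ha b hb s t _ _ hst
            have ha' : a.2 = 1 := ha
            have hb' : b.2 = 1 := hb
            show (s • a + t • b).2 = 1
            rw [Prod.snd_add, Prod.smul_snd, Prod.smul_snd, ha', hb', smul_eq_mul, smul_eq_mul,
              mul_one, mul_one, hst]
        exact hsub hq
      have hc0 : 0 < c := by
        rcases hc.eq_or_lt with h | h
        · exact absurd (by rw [← h, zero_smul]) h0
        · exact h
      show 0 < (c • q).2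
      rw [Prod.smul_snd, hq1, smul_eq_mul, mul_one]
      exact hc0
    exact hHUL f cfg (hFNT (E8 × ℝ) _ kit (hALT (E8 × ℝ) _ kit star) ⟨p, hp.1, p, hp, rfl⟩
      (LinearMap.snd ℝ E8 ℝ) hpos)
  · right
    exact hNST (E8 × ℝ) _ kit star

end Pool.Agent.H59.KW
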